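import Mathlib

/-!
# Projectional generators: definitions

`X` is a Banach space over `𝕜` (real or complex), `StrongDual 𝕜 X` its norm dual.
-/

namespace Pool.Agent.Work.MP_6c3bcd_an

open Set

variable {𝕜 : Type*} [RCLike 𝕜] {X : Type*} [NormedAddCommGroup X] [NormedSpace 𝕜 X]

/-- The weak-star closure of a set of functionals. -/
def wcl (C : Set (StrongDual 𝕜 X)) : Set (StrongDual 𝕜 X) :=
  (StrongDual.toWeakDual : StrongDual 𝕜 X → WeakDual 𝕜 X) ⁻¹'
    closure ((StrongDual.toWeakDual : StrongDual 𝕜 X → WeakDual 𝕜 X) '' C)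

/-- The annihilator `{f : f x = 0 for all x ∈ S}` of a set of vectors. -/
def perp (S : Set X) : Set (StrongDual 𝕜 X) := {f | ∀ x ∈ S, f x = 0}

/-- A set of functionals is weak-star countably closed if it contains the weak-star closure of each
of its countable subsets. -/
def WeakStarCountablyClosed (D : Set (StrongDual 𝕜 X)) : Prop :=
  ∀ C : Set (StrongDual 𝕜 X), C ⊆ D → C.Countable → wcl C ⊆ D

/-- `hull Y` is `D(Y)`: the smallest weak-star countably closed linear subspace containing `Y`. -/
def hull (Y : Submodule 𝕜 (StrongDual 𝕜 X)) : Submodule 𝕜 (StrongDual 𝕜 X) :=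
  sInf {D : Submodule 𝕜 (StrongDual 𝕜 X) |
    Y ≤ D ∧ WeakStarCountablyClosed (D : Set (StrongDual 𝕜 X))}

/-- A linear subspace `D` of the dual is norming if `x ↦ sup {|f x| : f ∈ D, ‖f‖ ≤ 1}` dominates a
positive multiple of the norm (it is always dominated by the norm, and it is always a seminorm). -/
def IsNorming (D : Submodule 𝕜 (StrongDual 𝕜 X)) : Prop :=
  ∃ c : ℝ, 0 < c ∧ ∀ x : X, c * ‖x‖ ≤ sSup {r : ℝ | ∃ f ∈ D, ‖f‖ ≤ 1 ∧ r = ‖f x‖}

/-- A projectional generator `(D, Φ)` on `X`: `D` is a norming linear subspace of the dual, `Φ`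
assigns to each element of `D` a countable set of vectors, and for each `A ⊆ D` whose norm closure
is a linear subspace, no nonzero functional lies both in the weak-star closure of `A` and in the
annihilator of the union of the `Φ y`, `y ∈ A`. -/
structure IsProjectionalGenerator (D : Submodule 𝕜 (StrongDual 𝕜 X)) (Φ : D → Set X) : Prop where
  norming : IsNorming D
  countable : ∀ y : D, (Φ y).Countable
  separates : ∀ A : Set D,
    (∃ L : Submodule 𝕜 (StrongDual 𝕜 X),
      closure ((fun y : D => (y : StrongDual 𝕜 X)) '' A) = (L : Set (StrongDual 𝕜 X))) →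
    perp (⋃ y ∈ A, Φ y) ∩ wcl ((fun y : D => (y : StrongDual 𝕜 X)) '' A) = {0}

end Pool.Agent.Work.MP_6c3bcd_an
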