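import Pool.Agent.Work.MP_6c3bcd_an.Bd.B04

namespace Pool.Agent.Work.MP_6c3bcd_an

open Set Topology

variable {𝕜 : Type*} [RCLike 𝕜] {X : Type*} [NormedAddCommGroup X] [NormedSpace 𝕜 X]

/-- **`Y` norm closed and `D(Y)/Y` generated modulo `Y` along a well-order with countable initial
segments.** -/
theorem rel_wellorder_extension {Y : Submodule 𝕜 (StrongDual 𝕜 X)} {Φ : Y → Set X}
    (hΦ : IsProjectionalGenerator Y Φ) (hY : IsClosed (Y : Set (StrongDual 𝕜 X)))
    {ι : Type*} [LinearOrder ι] [WellFoundedLT ι] (hι : ∀ i : ι, (Iic i).Countable)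
    (e : ι → StrongDual 𝕜 X) (heH : ∀ i, e i ∈ hull Y)
    (hdense : ∀ z ∈ hull Y, ∀ ε > 0, ∃ y ∈ Y, ∃ i, ‖z - y - e i‖ < ε) :
    ∃ Ψ : hull Y → Set X, IsProjectionalGenerator (hull Y) Ψ ∧
      ∀ y : Y, Ψ ⟨y, le_hull Y y.2⟩ = Φ y := by
  classical
  let H : ι → Submodule 𝕜 (StrongDual 𝕜 X) := fun i =>
    (Y ⊔ Submodule.span 𝕜 (e '' Iio i)).topologicalClosure
  have hHcl : ∀ i, (H i : Set (StrongDual 𝕜 X)) =
      closure ((Y ⊔ Submodule.span 𝕜 (e '' Iio i) : Submodule 𝕜 (StrongDual 𝕜 X)) :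
        Set (StrongDual 𝕜 X)) := fun i => Submodule.topologicalClosure_coe _
  have hHmono : ∀ {i j : ι}, i ≤ j → H i ≤ H j := by
    intro i j hij
    refine Submodule.topologicalClosure_mono (sup_le_sup_left (Submodule.span_mono ?_) _)
    exact image_mono (Iio_subset_Iio hij)
  have happrox : ∀ (J : Set ι) (z : StrongDual 𝕜 X),
      z ∈ closure ((Y ⊔ Submodule.span 𝕜 (e '' J) : Submodule 𝕜 (StrongDual 𝕜 X)) :
        Set (StrongDual 𝕜 X)) → ∀ ε > 0, ∃ y ∈ Y, ∃ s ∈ Gen (fun i => {e i}) J,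
          ‖z - y - s‖ < ε := by
    intro J z hz ε hε
    obtain ⟨q, hq, hdq⟩ := Metric.mem_closure_iff.1 hz (ε / 2) (by positivity)
    obtain ⟨y, hy, v, hv, rfl⟩ := Submodule.mem_sup.1 hq
    have hsub : e '' J ⊆ ⋃ i ∈ J, ({e i} : Set (StrongDual 𝕜 X)) := by
      rintro _ ⟨i, hi, rfl⟩
      exact mem_iUnion₂.2 ⟨i, hi, rfl⟩
    have hspan : (Submodule.span 𝕜 (e '' J) : Submodule 𝕜 (StrongDual 𝕜 X))
        ≤ qclSub (⋃ i ∈ J, ({e i} : Set (StrongDual 𝕜 X))) :=
      Submodule.span_le.2 ((hsub.trans (subset_qcl _)).trans subset_closure)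
    have hv' : v ∈ closure (Gen (fun i => ({e i} : Set (StrongDual 𝕜 X))) J) := hspan hv
    obtain ⟨s, hs, hds⟩ := Metric.mem_closure_iff.1 hv' (ε / 2) (by positivity)
    refine ⟨y, hy, s, hs, ?_⟩
    rw [dist_eq_norm] at hdq hds
    calc ‖z - y - s‖ = ‖(z - (y + v)) + (v - s)‖ := by congr 1; abel
      _ ≤ ‖z - (y + v)‖ + ‖v - s‖ := norm_add_le _ _
      _ < ε := by linarith
  refine rel_extension hΦ hY H (fun i => Submodule.isClosed_topologicalClosure _)
    (fun i => {e i}) (fun i => countable_singleton _) (fun i => singleton_subset_iff.2 (heH i))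
    ?_ ?_
  · -- countable supports
    intro z hz
    have hJ : ∀ n : ℕ, ∃ i : ι, ∃ y ∈ Y, ‖z - y - e i‖ < (1 / 2 : ℝ) ^ n := by
      intro n
      obtain ⟨y, hy, i, hi⟩ := hdense z hz ((1 / 2) ^ n) (by positivity)
      exact ⟨i, y, hy, hi⟩
    choose J hJ using hJ
    have hsub : {i | z ∉ H i} ⊆ ⋃ n, Iic (J n) := by
      intro i hi
      by_contra hcon
      rw [mem_iUnion] at hcon
      push Not at hcon
      apply hi
      have hlt : ∀ n, J n < i := fun n => not_le.1 (fun h => hcon n h)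
      rw [← SetLike.mem_coe, hHcl, Metric.mem_closure_iff]
      intro ε hε
      obtain ⟨n, hn⟩ := exists_pow_lt_of_lt_one hε (show (1 / 2 : ℝ) < 1 by norm_num)
      obtain ⟨y, hy, hyn⟩ := hJ n
      refine ⟨y + e (J n), Submodule.add_mem_sup hy (Submodule.subset_span ⟨J n, hlt n, rfl⟩), ?_⟩
      rw [dist_eq_norm, ← sub_sub]
      exact hyn.trans hn
    exact (countable_iUnion fun n => hι (J n)).mono hsub
  · intro z hz ε hε
    by_cases hall : {i | z ∉ H i} = univ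
    · rw [hall]
      obtain ⟨y, hy, i, hi⟩ := hdense z hz ε hε
      exact ⟨y, hy, e i, subset_qcl _ (mem_iUnion₂.2 ⟨i, mem_univ i, rfl⟩), hi⟩
    · have hne : ({i | z ∉ H i}ᶜ : Set ι).Nonempty := by
        rw [nonempty_compl]
        exact hall
      obtain ⟨i, hi, hmin⟩ := WellFounded.has_min (wellFounded_lt (α := ι)) _ hne
      have hzi : z ∈ H i := by
        by_contra h
        exact hi h
      have hsub : Iio i ⊆ {j | z ∉ H j} := by
        intro j hj
        by_contra hcon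
        exact hmin j hcon hj
      rw [← SetLike.mem_coe, hHcl] at hzi
      obtain ⟨y, hy, s, hs, hlt⟩ := happrox (Iio i) z hzi ε hε
      exact ⟨y, hy, s, Gen_mono _ hsub hs, hlt⟩

/-- **`Y` norm closed and `D(Y)/Y` of density at most `ℵ₁`.** -/
theorem rel_aleph_one_extension {Y : Submodule 𝕜 (StrongDual 𝕜 X)} {Φ : Y → Set X}
    (hΦ : IsProjectionalGenerator Y Φ) (hY : IsClosed (Y : Set (StrongDual 𝕜 X)))
    (hS : ∃ S : Set (StrongDual 𝕜 X), Cardinal.mk S ≤ Cardinal.aleph 1 ∧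
      S ⊆ (hull Y : Set (StrongDual 𝕜 X)) ∧
      ∀ z ∈ hull Y, ∀ ε > 0, ∃ y ∈ Y, ∃ s ∈ S, ‖z - y - s‖ < ε) :
    ∃ Ψ : hull Y → Set X, IsProjectionalGenerator (hull Y) Ψ ∧
      ∀ y : Y, Ψ ⟨y, le_hull Y y.2⟩ = Φ y := by
  obtain ⟨S, hcard, hSH, hdense⟩ := hS
  let ι := (Cardinal.aleph 1).ord.ToType
  have hιcard : Cardinal.mk ι = Cardinal.aleph 1 := by
    rw [Cardinal.mk_toType, Cardinal.card_ord]
  have hcard' : Cardinal.mk S ≤ Cardinal.mk ι := by rw [hιcard]; exact hcard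
  obtain ⟨emb⟩ := hcard'
  obtain ⟨_, _, s₀, hs₀, _⟩ := hdense 0 (hull Y).zero_mem 1 one_pos
  have _ : Nonempty S := ⟨⟨s₀, hs₀⟩⟩
  have hι : ∀ i : ι, (Iic i).Countable := by
    intro i
    have h1 : (Iio i).Countable := by
      rw [Cardinal.countable_iff_lt_aleph_one]
      have h2 := Cardinal.mk_Iio_lt i (by rw [hιcard]; simp [ι])
      rwa [hιcard] at h2
    have h3 : Iic i = insert i (Iio i) := by
      rw [Iio_insert]
    rw [h3]
    exact h1.insert i
  have hsurj : Function.Surjective (Function.invFun emb) :=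
    Function.invFun_surjective emb.injective
  refine rel_wellorder_extension hΦ hY hι
    (fun i => ((Function.invFun emb i : S) : StrongDual 𝕜 X)) (fun i => hSH (Subtype.coe_prop _)) ?_
  intro z hz ε hε
  obtain ⟨y, hy, s, hs, hlt⟩ := hdense z hz ε hε
  obtain ⟨i, hi⟩ := hsurj ⟨s, hs⟩
  exact ⟨y, hy, i, by rw [hi]; exact hlt⟩

end Pool.Agent.Work.MP_6c3bcd_an
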