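import Pool.Agent.Work.MP_6c3bcd_an.Bd.B01

namespace Pool.Agent.Work.MP_6c3bcd_an

open Set Topology

variable {𝕜 : Type*} [RCLike 𝕜] {X : Type*} [NormedAddCommGroup X] [NormedSpace 𝕜 X]

/-- A functional vanishing on a set with dense span is zero. -/
theorem eq_zero_of_dense_span {G : Set X} (hG : Dense (Submodule.span 𝕜 G : Set X))
    {f : StrongDual 𝕜 X} (hf : ∀ x ∈ G, f x = 0) : f = 0 := by
  have h1 : ∀ x ∈ Submodule.span 𝕜 G, f x = 0 := by
    intro x hx
    induction hx using Submodule.span_induction with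
    | mem x hx => exact hf x hx
    | zero => exact map_zero f
    | add x y _ _ hx hy => rw [map_add, hx, hy, add_zero]
    | smul c x _ hx => rw [map_smul, hx, smul_zero]
  ext x
  have hcl : IsClosed {x : X | f x = 0} := isClosed_eq f.continuous continuous_const
  have : x ∈ {x : X | f x = 0} := by
    have hsub : closure (Submodule.span 𝕜 G : Set X) ⊆ {x : X | f x = 0} :=
      closure_minimal h1 hcl
    exact hsub (hG x)
  simpa using this

/-- **The case where `D(Y)` lies in a Σ-subspace.** -/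
theorem sigma_extension {Y : Submodule 𝕜 (StrongDual 𝕜 X)} {Φ : Y → Set X}
    (hΦ : IsProjectionalGenerator Y Φ) (G : Set X)
    (hG : Dense (Submodule.span 𝕜 G : Set X))
    (hsupp : ∀ z ∈ hull Y, {x | x ∈ G ∧ z x ≠ 0}.Countable) :
    ∃ Ψ : hull Y → Set X, IsProjectionalGenerator (hull Y) Ψ ∧
      ∀ y : Y, Ψ ⟨y, le_hull Y y.2⟩ = Φ y := by
  refine extension_somewhere_dense hΦ (fun z => {x | x ∈ G ∧ z x ≠ 0}) hsupp ?_
  intro L hL A hAL U hU hne hUA f hf hfN
  refine eq_zero_of_dense_span hG fun x hx => ?_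
  by_contra hfx
  -- some element of `L` does not vanish at `x`
  have hex : ∃ l ∈ L, l x ≠ 0 := by
    by_contra hcon
    push Not at hcon
    exact hfx (wcl_apply_eq_zero hcon hf)
  let ev : StrongDual 𝕜 X →L[𝕜] 𝕜 := ContinuousLinearMap.apply 𝕜 𝕜 x
  let H : Submodule 𝕜 (StrongDual 𝕜 X) := LinearMap.ker (ev : StrongDual 𝕜 X →ₗ[𝕜] 𝕜)
  have hHmem : ∀ g : StrongDual 𝕜 X, g ∈ H ↔ g x = 0 := fun g => Iff.rfl
  have hLH : ¬ L ≤ H := by
    intro h
    obtain ⟨l, hl, hlx⟩ := hex
    exact hlx ((hHmem l).1 (h hl))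
  obtain ⟨u, hu, huH⟩ := exists_mem_open_not_mem hLH hU hne
  have hopen : IsOpen {g : StrongDual 𝕜 X | g x ≠ 0} := by
    have : IsClosed {g : StrongDual 𝕜 X | ev g = 0} := isClosed_eq ev.continuous continuous_const
    exact this.isOpen_compl
  obtain ⟨a, ha, haA⟩ := mem_closure_iff.1 (hUA hu) _ hopen (fun h => huH ((hHmem u).2 h))
  exact hfx (hfN a haA x ⟨hx, ha⟩)

end Pool.Agent.Work.MP_6c3bcd_an
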